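import Pool.Agent.N805.JG.Stm

/-!
Project JG (helper805), C1': total mass one. Author: helper438.
-/

set_option autoImplicit false

open MeasureTheory Filter Topology

namespace Pool.Agent.N438.JG

open Pool.Agent.N805.JG

theorem PROB : S_PROB := by
  intro hE M
  constructor
  rcases Nat.eq_zero_or_pos M with rfl | hM
  · unfold cue
    have h1 : (Set.univ.pi fun _ : Fin 0 => Set.Ico (0:ℝ) 1) = Set.univ := by
      ext x; simp
    have h2 : (volume : Measure (Fin 0 → ℝ)) = Measure.dirac 0 :=
      Measure.volume_pi_eq_dirac 0
    rw [h1, Measure.restrict_univ, withDensity_apply _ MeasurableSet.univ, Measure.restrict_univ,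
      h2]
    simp
  · obtain ⟨lam, -, -, -, h⟩ := hE M hM ∅ MeasurableSet.empty (Set.empty_subset _)
    obtain ⟨h1, h2⟩ := h 1 one_pos
    simp only [one_pow, sub_self, zero_mul, add_zero, Finset.prod_const_one] at h1 h2
    have h3 : IsFiniteMeasure (cue M) := by
      rcases integrable_const_iff.1 h1 with h | h
      · exact absurd h one_ne_zero
      · exact h
    rw [integral_const, smul_eq_mul, mul_one, Measure.real] at h2
    rw [← ENNReal.ofReal_toReal (measure_ne_top (cue M) Set.univ), h2, ENNReal.ofReal_one]

end Pool.Agent.N438.JG
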